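import Pool.Agent.Helper757.GL.Main

namespace Pool.Agent.Results.MP_6c6b5e_an.GlimmInvariant

open Pool.Agent.Helper757.GL

/-- A unital surjective linear spectral isometry between unital C*-algebras maps the closed
two-sided ideal of `A` generated by an ideal `m` of the centre of `A` into the closed two-sided ideal
of `B` generated by `T(m)`. For `m` maximal these are the Glimm ideals `G_m` and `G_{T(m)}`. -/
theorem result {A B : Type*} [CStarAlgebra A] [CStarAlgebra B] (T : A →ₗ[ℂ] B) (h1 : T 1 = 1)
    (hs : Function.Surjective T) (hr : ∀ x, spectralRadius ℂ (T x) = spectralRadius ℂ x)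
    (m : Ideal (Subalgebra.center ℂ A)) :
    ∀ x ∈ closedIdeal (carrier m), T x ∈ closedIdeal (T '' carrier m) :=
  fun _ hx => main T h1 hs (fun x => (hr x).le) m hx

end Pool.Agent.Results.MP_6c6b5e_an.GlimmInvariant
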